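import Pool.Agent.H3.SF.Tg2

/-!
# MP_70ba79_ag, THEOREM S, row SCV: scaling of the values of homogeneous elements
-/

set_option autoImplicit false

open MvPolynomial SC Pool.Agent.H27.LV
open Pool.Agent.H84.SM (dp cr dt)
open Pool.Agent.H92.SF Pool.Agent.H3.SF

namespace Pool.Agent.H39.SF

theorem scv_ev2 {R : Type} [CommRing R] (p : Fin 3 → R) (w : R) (V : Q2 R) (N : ℕ)
    (hN : V.natDegree < N) : ev2 (RingHom.id R) p w V = ∑ j ∈ Finset.range N,
      eval₂ (RingHom.id R) ![p 1, p 2] (V.coeff j) * w ^ j := by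
  rw [ev2, Polynomial.coe_eval₂RingHom, Polynomial.eval₂_eq_sum_range' _ hN]
  rfl

theorem pf_SCV : T_SCV := by
  intro k K _ _ _ _ D x c μ n τ V V' hc hV hs
  unfold evc
  obtain ⟨p, hp⟩ : ∃ p, p = cr x fun i => D (x i) := ⟨_, rfl⟩
  obtain ⟨w, hw⟩ : ∃ w, w = dt x (fun i => D (x i)) fun i => D (D (x i)) := ⟨_, rfl⟩
  have hp' : (cr (fun i => c * x i) fun i => (μ • D) (c * x i)) = fun i => c ^ 2 * μ * p i := by
    funext i
    rw [hp]
    simp only [cr, Derivation.smul_apply, Derivation.leibniz, smul_eq_mul]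
    ring
  have hw' : (dt (fun i => c * x i) (fun i => (μ • D) (c * x i))
      fun i => (μ • D) ((μ • D) (c * x i))) = c ^ 3 * μ ^ 3 * w := by
    rw [hw]
    simp only [dt, dp, cr, Fin.sum_univ_three, Derivation.smul_apply, Derivation.leibniz,
      smul_eq_mul, map_add]
    simp
    ring
  rw [hp', hw', ← hp, ← hw]
  have hN1 : V.natDegree < max V.natDegree V'.natDegree + 1 := by omega
  have hN2 : V'.natDegree < max V.natDegree V'.natDegree + 1 := by omega
  rw [scv_ev2 _ _ V' _ hN2, scv_ev2 _ _ V _ hN1, Finset.mul_sum]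
  refine Finset.sum_congr rfl fun j _ => ?_
  have hco : V'.coeff j = C (c ^ (τ - 2 * n + 3 * j)) * V.coeff j := by
    ext a
    rw [hs j a, coeff_C_mul]
  by_cases hj : 3 * j ≤ n
  · have hh := (hV j).1 hj
    have e0 : eval₂ (RingHom.id K) ![c ^ 2 * μ * p 1, c ^ 2 * μ * p 2] (V.coeff j) =
        (c ^ 2 * μ) ^ (n - 3 * j) * eval₂ (RingHom.id K) ![p 1, p 2] (V.coeff j) := by
      rw [eval₂_eq', eval₂_eq', Finset.mul_sum]
      refine Finset.sum_congr rfl fun a ha => ?_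
      have ha' : a 0 + a 1 = n - 3 * j := by
        have := hh (MvPolynomial.mem_support_iff.mp ha)
        rw [Finsupp.weight_apply, Finsupp.sum_fintype _ _ (by simp)] at this
        simpa [Fin.sum_univ_two] using this
      simp only [Fin.prod_univ_two, Matrix.cons_val_zero, Matrix.cons_val_one]
      rw [← ha', mul_pow, mul_pow (c ^ 2 * μ)]
      ring
    have e1 : eval₂ (RingHom.id K) ![c ^ 2 * μ * p 1, c ^ 2 * μ * p 2] (V'.coeff j) =
        c ^ (τ - 2 * n + 3 * j) * (c ^ 2 * μ) ^ (n - 3 * j) *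
          eval₂ (RingHom.id K) ![p 1, p 2] (V.coeff j) := by
      rw [hco, eval₂_mul, eval₂_C, e0, RingHom.id_apply]
      ring
    rw [e1]
    have e2 : c ^ (τ - 2 * n + 3 * j) * (c ^ 2 * μ) ^ (n - 3 * j) * (c ^ 3 * μ ^ 3) ^ j =
        c ^ τ * μ ^ n := by
      have h1 : (c ^ 2 * μ) ^ (n - 3 * j) * (c ^ 3 * μ ^ 3) ^ j =
          c ^ (2 * (n - 3 * j) + 3 * j) * μ ^ n := by
        have : n = (n - 3 * j) + 3 * j := by omega
        calc (c ^ 2 * μ) ^ (n - 3 * j) * (c ^ 3 * μ ^ 3) ^ j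
            = c ^ (2 * (n - 3 * j) + 3 * j) * μ ^ ((n - 3 * j) + 3 * j) := by
              rw [mul_pow, mul_pow, ← pow_mul, ← pow_mul, ← pow_mul, pow_add, pow_add]; ring
          _ = _ := by rw [← this]
      rw [mul_assoc, h1, ← mul_assoc]
      congr 1
      rw [← zpow_natCast c (2 * (n - 3 * j) + 3 * j), ← zpow_add₀ hc]
      congr 1
      push_cast [Nat.cast_sub hj]
      ring
    calc _ = (c ^ (τ - 2 * n + 3 * j) * (c ^ 2 * μ) ^ (n - 3 * j) * (c ^ 3 * μ ^ 3) ^ j) *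
          (eval₂ (RingHom.id K) ![p 1, p 2] (V.coeff j) * w ^ j) := by
          rw [mul_pow (c ^ 3 * μ ^ 3) w]; ring
      _ = _ := by rw [e2]
  · rw [hco, (hV j).2 (by omega)]
    simp

end Pool.Agent.H39.SF
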